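import Pool.Agent.Lib.MP_3e612f_nt.PI.KLc
import Pool.Agent.Lib.MP_3e612f_nt.PI.Gad
import Pool.Agent.Lib.MP_3e612f_nt.PI.Sp

/-!
(G5) Rigidity, dual form: the feature vector `(t', c)`, `t' = b + D + 1`, is a linear combination of the
vectors of the gadgets at one position (OWNER helper31).

`blk q D l e u` is the sum of the vectors `e (i, c)` of the features `(i, c)` of the block content `u`,
`i < l - D`, `c = wd q D i u`, `c % q ≠ 0`.

PROOF of `rig_span`: apply `kl` (with `κ = 1`, `j = 1`, and `q • v = 0`) to the classes of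
`blk e (u % q ^ l)` and `blk e' (u % q ^ l)` modulo the span `S` of the gadget vectors:
`Lp (u + q ^ t') = Lp u` if the digit of `u` at `t'` is not `q - 1`. So
`Lp (c q ^ t') = Lp ((c - c % q) q ^ t')`, and `blk (c q ^ t') - blk ((c - c % q) q ^ t') = e (t', c)`.
-/

set_option autoImplicit false

namespace Pool.Agent.Lib.MP_3e612f_nt.DI.G

open Finset
open Pool.Agent.Lib.MP_3e612f_nt.PI

section
variable {V : Type} [AddCommGroup V]

/-- the sum of the vectors of the features of the block content `u` -/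
def blk (q D l : ℕ) (e : ℕ × ℕ → V) (u : ℕ) : V :=
  ∑ i ∈ range (l - D), if wd q D i u % q = 0 then 0 else e (i, wd q D i u)

/-- the vector of the gadget `o` for the multiplier `t` -/
def gv (q D g l : ℕ) (z0 x0 : ℕ → ℕ) (s t : ℕ) (e : ℕ × ℕ → V) (o : ℕ × ℕ) : V :=
  blk q D l e (ut q g l z0 x0 s t o + t * q ^ D) - blk q D l e (ut q g l z0 x0 s t o)

theorem blk_single {q D l t' c : ℕ} (hq : 2 ≤ q) (e : ℕ × ℕ → V) (hl : t' + D + 1 ≤ l)
    (hc : c < q ^ (D + 1)) (hcq : c % q ≠ 0) :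
    blk q D l e (c * q ^ t') - blk q D l e ((c - c % q) * q ^ t') = e (t', c) := by
  have hq0 : 0 < q := by omega
  unfold blk
  rw [← Finset.sum_sub_distrib, Finset.sum_eq_single t']
  · have h1 : wd q D t' (c * q ^ t') = c := by
      unfold wd
      rw [Nat.mul_div_cancel _ (pow_pos hq0 _), Nat.mod_eq_of_lt hc]
    have h2 : wd q D t' ((c - c % q) * q ^ t') = c - c % q := by
      unfold wd
      rw [Nat.mul_div_cancel _ (pow_pos hq0 _),
        Nat.mod_eq_of_lt (lt_of_le_of_lt (Nat.sub_le _ _) hc)]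
    have h3 : (c - c % q) % q = 0 := by
      have h := Nat.div_add_mod c q
      have : c - c % q = q * (c / q) := by omega
      rw [this, Nat.mul_mod_right]
    rw [h1, h2, if_neg hcq, if_pos h3, sub_zero]
  · intro i _ hi
    rcases Nat.lt_or_gt_of_ne hi with h | h
    · have h1 : ∀ x : ℕ, wd q D i (x * q ^ t') % q = 0 := by
        intro x
        obtain ⟨k, rfl⟩ := Nat.exists_eq_add_of_lt h
        have e1 : x * q ^ (i + k + 1) = q ^ i * (q * (x * q ^ k)) := by
          rw [pow_add, pow_add, pow_one]; ring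
        unfold wd
        rw [e1, Nat.mul_div_cancel_left _ (pow_pos hq0 _),
          Nat.mod_mod_of_dvd _ (dvd_pow_self q (Nat.succ_ne_zero D)), Nat.mul_mod_right]
      rw [if_pos (h1 _), if_pos (h1 _), sub_zero]
    · have h1 : wd q D i (c * q ^ t') = wd q D i ((c - c % q) * q ^ t') := by
        obtain ⟨k, rfl⟩ := Nat.exists_eq_add_of_lt h
        have e1 : ∀ x : ℕ, x * q ^ t' / q ^ (t' + k + 1) = x / q / q ^ k := by
          intro x
          have e2 : q ^ (t' + k + 1) = q ^ t' * (q * q ^ k) := by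
            rw [pow_add, pow_add, pow_one]; ring
          rw [e2, ← Nat.div_div_eq_div_mul, Nat.mul_div_cancel _ (pow_pos hq0 _),
            ← Nat.div_div_eq_div_mul]
        unfold wd
        have e3 : (c - c % q) / q = c / q := by
          have h := Nat.div_add_mod c q
          have h2 : c - c % q = q * (c / q) := by omega
          rw [h2, Nat.mul_div_cancel_left _ hq0]
        rw [e1, e1, e3]
      rw [h1, sub_self]
  · intro h
    exfalso
    apply h
    rw [mem_range]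
    omega

private theorem rig_x0 {q g l : ℕ} {z0 x0 : ℕ → ℕ} (s t A x : ℕ) :
    (t * x + (t * x0 (sa q g l s A) + sg q g t (z0 (sa q g l s A)) (sa q g l s A))) % q ^ l =
      ut q g l z0 x0 s t (A, x) := by
  show _ = (t * (x0 (sa q g l s A) + x) +
    sg q g t (z0 (sa q g l s A)) (sa q g l s A)) % q ^ l
  congr 1
  ring

private theorem rig_x1 {q D g l H p r : ℕ} {z0 x0 : ℕ → ℕ} (hq : 2 ≤ q) (hDl : D ≤ l)
    (hG : Gad q D g l H p r z0 x0) {t : ℕ} (ht : t = p ∨ t = r) (s A : ℕ) {x : ℕ} (hx : x < H) :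
    (t * (x + q ^ D) + (t * x0 (sa q g l s A) +
      sg q g t (z0 (sa q g l s A)) (sa q g l s A))) % q ^ l =
      ut q g l z0 x0 s t (A, x) + t * q ^ D := by
  rw [ut_add hq hDl hG ht s (o := (A, x)) hx]
  show _ = (t * (x0 (sa q g l s A) + (x + q ^ D)) +
    sg q g t (z0 (sa q g l s A)) (sa q g l s A)) % q ^ l
  congr 1
  ring

/-- block vectors are split functions of the content -/
theorem split_blk {W : Type} [AddCommGroup W] {q D l : ℕ} (hq : 2 ≤ q) (e : ℕ × ℕ → V)
    (f : V →+ W) : Split q D (fun u => f (blk q D l e (u % q ^ l))) := by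
  have h := Split.sum (G := W) (q := q) (D := D) (range (l - D))
    (f := fun i u => f (if wd q D i (u % q ^ l * q ^ 0) % q = 0 then 0
      else e (i, wd q D i (u % q ^ l * q ^ 0))))
    (fun i _ => split_wd hq l 0 i fun w => f (if w % q = 0 then 0 else e (i, w)))
  have e1 : (fun u => f (blk q D l e (u % q ^ l))) = fun u =>
      ∑ i ∈ range (l - D), f (if wd q D i (u % q ^ l * q ^ 0) % q = 0 then 0
        else e (i, wd q D i (u % q ^ l * q ^ 0))) := by
    funext u
    unfold blk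
    rw [map_sum, pow_zero, mul_one]
  rw [e1]
  exact h

/-- **(G5)** the vector of the feature `(t', c)`, `t' = b + D + 1`, of the first multiplier is a
linear combination of the vectors of the gadgets at the position `a` -/
theorem rig_span {ℓ : ℕ} [Module (ZMod ℓ) V] {q p r D b g l H : ℕ} {z0 x0 : ℕ → ℕ} (hq : 2 ≤ q)
    (hℓ : ℓ ∣ q) (hp : p.Prime) (hpq : p.Coprime q) (hpr : p.Coprime r) (hr : 0 < r)
    (hb1 : 2 * p * r ≤ q ^ b) (hb2 : 2 * p * q ^ D ≤ q ^ b) (hb3 : 2 * r * q ^ D ≤ q ^ b)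
    (hH : q ^ (b + 3 * D + 4) ≤ H) (hl : b + 2 * D + 2 ≤ l) (hG : Gad q D g l H p r z0 x0)
    (s a : ℕ) (e e' : ℕ × ℕ → V) {c : ℕ} (hc : c < q ^ (D + 1)) (hcq : c % q ≠ 0) :
    e (b + D + 1, c) ∈ Submodule.span (ZMod ℓ) (Set.range fun lam : Fin H =>
      gv q D g l z0 x0 s p e (a, lam) + gv q D g l z0 x0 s r e' (a, lam)) := by
  have hq0 : 0 < q := by omega
  have hDl : D ≤ l := by omega
  set S := Submodule.span (ZMod ℓ) (Set.range fun lam : Fin H =>
      gv q D g l z0 x0 s p e (a, lam) + gv q D g l z0 x0 s r e' (a, lam)) with hS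
  let π : V →+ V ⧸ S := S.mkQ.toAddMonoidHom
  have hπ : ∀ v ∈ S, π v = 0 := fun v hv => (Submodule.Quotient.mk_eq_zero S).2 hv
  have hπ' : ∀ v, π v = 0 → v ∈ S := fun v hv => (Submodule.Quotient.mk_eq_zero S).1 hv
  have hK : ∀ x < H,
      π (blk q D l e ((p * (x + q ^ D) + (p * x0 (sa q g l s a) +
        sg q g p (z0 (sa q g l s a)) (sa q g l s a))) % q ^ l)) +
      π (blk q D l e' ((r * (x + q ^ D) + (r * x0 (sa q g l s a) +
        sg q g r (z0 (sa q g l s a)) (sa q g l s a))) % q ^ l)) =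
      π (blk q D l e ((p * x + (p * x0 (sa q g l s a) +
        sg q g p (z0 (sa q g l s a)) (sa q g l s a))) % q ^ l)) +
      π (blk q D l e' ((r * x + (r * x0 (sa q g l s a) +
        sg q g r (z0 (sa q g l s a)) (sa q g l s a))) % q ^ l)) := by
    intro x hx
    rw [rig_x1 hq hDl hG (Or.inl rfl) s a hx, rig_x1 hq hDl hG (Or.inr rfl) s a hx, rig_x0, rig_x0]
    have h1 : gv q D g l z0 x0 s p e (a, x) + gv q D g l z0 x0 s r e' (a, x) ∈ S :=
      Submodule.subset_span ⟨⟨x, hx⟩, rfl⟩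
    have h2 := hπ _ h1
    unfold gv at h2
    rw [map_add, map_sub, map_sub] at h2
    rw [← sub_eq_zero, ← h2]
    abel
  obtain ⟨g0, hg0⟩ := kl (κ := 1) hq hp hpq hpr hr hb1 hb2 hb3
    (split_blk (l := l) hq e π) (split_blk (l := l) hq e' π)
    (H := H) (by exact hH) hK
  have hz : (q ^ 1 : ℕ) • g0 = 0 := by
    obtain ⟨k, rfl⟩ := hℓ
    have h1 : ((ℓ * k) ^ 1 : ℕ) • g0 = (((ℓ * k : ℕ) : ZMod ℓ)) • g0 := by
      rw [pow_one, Nat.cast_smul_eq_nsmul]
    rw [h1, Nat.cast_mul, ZMod.natCast_self, zero_mul, zero_smul]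
  have hstep : ∀ i ≤ c % q, π (blk q D l e ((c - c % q + i) * q ^ (b + D + 1) % q ^ l)) =
      π (blk q D l e ((c - c % q) * q ^ (b + D + 1) % q ^ l)) := by
    intro i
    induction i with
    | zero =>
      intro _
      rw [add_zero]
    | succ i ih =>
      intro hi
      have h1 := hg0 1 le_rfl ((c - c % q + i) * q ^ (b + D + 1)) (by
        rw [Nat.mul_div_cancel _ (pow_pos hq0 _)]
        have h2 : c - c % q = q * (c / q) := by
          have h := Nat.div_add_mod c q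
          omega
        have h3 : c % q < q := Nat.mod_lt _ hq0
        rw [h2, Nat.mul_add_mod, Nat.mod_eq_of_lt (by omega)]
        omega)
      rw [hz, sub_eq_zero] at h1
      rw [← ih (by omega), ← h1]
      congr 3
      ring
  have hcle : c - c % q + c % q = c := Nat.sub_add_cancel (Nat.mod_le _ _)
  have h1 := hstep (c % q) le_rfl
  rw [hcle] at h1
  have hlt : ∀ x ≤ c, x * q ^ (b + D + 1) < q ^ l := by
    intro x hx
    calc x * q ^ (b + D + 1) ≤ c * q ^ (b + D + 1) := Nat.mul_le_mul_right _ hx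
      _ < q ^ (D + 1) * q ^ (b + D + 1) := (Nat.mul_lt_mul_right (pow_pos hq0 _)).2 hc
      _ = q ^ (D + 1 + (b + D + 1)) := (pow_add _ _ _).symm
      _ ≤ q ^ l := Nat.pow_le_pow_right hq0 (by omega)
  rw [Nat.mod_eq_of_lt (hlt c le_rfl), Nat.mod_eq_of_lt (hlt _ (Nat.sub_le _ _)), ← sub_eq_zero,
    ← map_sub, blk_single hq e (by omega) hc hcq] at h1
  exact hπ' _ h1

/-- the coefficients -/
theorem rig_coeff {ℓ : ℕ} [Module (ZMod ℓ) V] {q p r D b g l H : ℕ} {z0 x0 : ℕ → ℕ} (hq : 2 ≤ q)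
    (hℓ : ℓ ∣ q) (hp : p.Prime) (hpq : p.Coprime q) (hpr : p.Coprime r) (hr : 0 < r)
    (hb1 : 2 * p * r ≤ q ^ b) (hb2 : 2 * p * q ^ D ≤ q ^ b) (hb3 : 2 * r * q ^ D ≤ q ^ b)
    (hH : q ^ (b + 3 * D + 4) ≤ H) (hl : b + 2 * D + 2 ≤ l) (hG : Gad q D g l H p r z0 x0)
    (s a : ℕ) (e e' : ℕ × ℕ → V) {c : ℕ} (hc : c < q ^ (D + 1)) (hcq : c % q ≠ 0) :
    ∃ γ : Fin H → ZMod ℓ, ∑ lam : Fin H, γ lam •
      (gv q D g l z0 x0 s p e (a, lam) + gv q D g l z0 x0 s r e' (a, lam)) =
        e (b + D + 1, c) :=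
  (Submodule.mem_span_range_iff_exists_fun (ZMod ℓ)).1
    (rig_span hq hℓ hp hpq hpr hr hb1 hb2 hb3 hH hl hG s a e e' hc hcq)

end

end Pool.Agent.Lib.MP_3e612f_nt.DI.G
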