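import Mathlib

/-!
(G1), combinatorial part: alternating sums over the colours of a sum over the subsets of a union of
blocks only see the transversals (OWNER helper31).
-/

set_option autoImplicit false

namespace Pool.Agent.Lib.MP_3e612f_nt.DI.G

open Finset

section
variable {X C G : Type} [DecidableEq X] [Fintype C] [DecidableEq C]

private theorem alt_sub {base : Finset X} {F F' : C → Finset X}
    (hb : ∀ c, Disjoint base (F c ∪ F' c))
    (hd : ∀ c c', c ≠ c' → Disjoint (F c ∪ F' c) (F c' ∪ F' c')) {S : Finset X}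
    (hS : S ⊆ base ∪ univ.biUnion fun c => F c ∪ F' c) (I : Finset C) :
    S ⊆ (base ∪ univ.biUnion fun c => if c ∈ I then F' c else F c) ↔
      ∀ c, S ∩ (F c ∪ F' c) ⊆ if c ∈ I then F' c else F c := by
  constructor
  · intro h c x hx
    obtain ⟨hx1, hx2⟩ := mem_inter.1 hx
    rcases mem_union.1 (h hx1) with h1 | h1
    · exact absurd hx2 (disjoint_left.1 (hb c) h1)
    · obtain ⟨c', -, hc'⟩ := mem_biUnion.1 h1
      have h2 : x ∈ F c' ∪ F' c' := by
        by_cases hI : c' ∈ I
        · rw [if_pos hI] at hc'
          exact mem_union_right _ hc'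
        · rw [if_neg hI] at hc'
          exact mem_union_left _ hc'
      have h3 : c = c' := by
        by_contra hne
        exact disjoint_left.1 (hd c c' hne) hx2 h2
      subst h3
      exact hc'
  · intro h x hx
    rcases mem_union.1 (hS hx) with h1 | h1
    · exact mem_union_left _ h1
    · obtain ⟨c, -, hc⟩ := mem_biUnion.1 h1
      exact mem_union_right _ (mem_biUnion.2 ⟨c, mem_univ _, h c (mem_inter.2 ⟨hx, hc⟩)⟩)

private theorem alt_coef {base : Finset X} {F F' : C → Finset X}
    (hb : ∀ c, Disjoint base (F c ∪ F' c))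
    (hd : ∀ c c', c ≠ c' → Disjoint (F c ∪ F' c) (F c' ∪ F' c')) {S : Finset X}
    (hS : S ⊆ base ∪ univ.biUnion fun c => F c ∪ F' c) :
    (∑ I : Finset C, (-1 : ℤ) ^ I.card *
      if S ⊆ (base ∪ univ.biUnion fun c => if c ∈ I then F' c else F c) then 1 else 0) =
    ∏ c, ((if S ∩ (F c ∪ F' c) ⊆ F c then (1 : ℤ) else 0) -
      if S ∩ (F c ∪ F' c) ⊆ F' c then 1 else 0) := by
  rw [Finset.prod_sub, Finset.powerset_univ]
  refine Finset.sum_congr rfl fun I _ => ?_
  rw [mul_assoc]
  congr 1
  have h1 : (if S ⊆ (base ∪ univ.biUnion fun c => if c ∈ I then F' c else F c) then (1 : ℤ) else 0) =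
      ∏ c, if S ∩ (F c ∪ F' c) ⊆ (if c ∈ I then F' c else F c) then (1 : ℤ) else 0 := by
    rw [Finset.prod_boole]
    congr 1
    rw [alt_sub hb hd hS I]
    simp only [mem_univ, true_imp_iff]
  rw [h1, ← Finset.prod_sdiff (Finset.subset_univ I)]
  congr 1
  · refine Finset.prod_congr rfl fun c hc => ?_
    rw [if_neg (mem_sdiff.1 hc).2]
  · refine Finset.prod_congr rfl fun c hc => ?_
    rw [if_pos hc]

/-- the alternating sum over the colours only sees the transversals -/
theorem alt_sum [AddCommGroup G] (base : Finset X) (F F' : C → Finset X)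
    (hb : ∀ c, Disjoint base (F c ∪ F' c))
    (hd : ∀ c c', c ≠ c' → Disjoint (F c ∪ F' c) (F c' ∪ F' c'))
    (t : Finset X → G) (ht : ∀ S, Fintype.card C < S.card → t S = 0) :
    ∑ I : Finset C, (-1 : ℤ) ^ I.card •
      ∑ S ∈ (base ∪ univ.biUnion fun c => if c ∈ I then F' c else F c).powerset, t S =
    ∑ x ∈ Fintype.piFinset (fun c => F c ∪ F' c),
      (∏ c, ((if x c ∈ F c then (1 : ℤ) else 0) - if x c ∈ F' c then 1 else 0)) •
        t (univ.image x) := by
  classical
  set A : Finset X := base ∪ univ.biUnion fun c => F c ∪ F' c with hA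
  set K : Finset X → ℤ := fun S => ∏ c, ((if S ∩ (F c ∪ F' c) ⊆ F c then (1 : ℤ) else 0) -
      if S ∩ (F c ∪ F' c) ⊆ F' c then 1 else 0) with hK
  have hU : ∀ I : Finset C,
      (base ∪ univ.biUnion fun c => if c ∈ I then F' c else F c) ⊆ A := by
    intro I x hx
    rcases mem_union.1 hx with h | h
    · exact mem_union_left _ h
    · obtain ⟨c, -, hc⟩ := mem_biUnion.1 h
      refine mem_union_right _ (mem_biUnion.2 ⟨c, mem_univ _, ?_⟩)
      by_cases hI : c ∈ I
      · rw [if_pos hI] at hc
        exact mem_union_right _ hc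
      · rw [if_neg hI] at hc
        exact mem_union_left _ hc
  -- left side
  have hleft : ∑ I : Finset C, (-1 : ℤ) ^ I.card •
      ∑ S ∈ (base ∪ univ.biUnion fun c => if c ∈ I then F' c else F c).powerset, t S =
      ∑ S ∈ A.powerset, K S • t S := by
    have h1 : ∀ I : Finset C, (-1 : ℤ) ^ I.card •
        ∑ S ∈ (base ∪ univ.biUnion fun c => if c ∈ I then F' c else F c).powerset, t S =
        ∑ S ∈ A.powerset, ((-1 : ℤ) ^ I.card *
          if S ⊆ (base ∪ univ.biUnion fun c => if c ∈ I then F' c else F c) then 1 else 0) •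
            t S := by
      intro I
      rw [Finset.smul_sum]
      have h2 : (base ∪ univ.biUnion fun c => if c ∈ I then F' c else F c).powerset =
          A.powerset.filter fun S =>
            S ⊆ (base ∪ univ.biUnion fun c => if c ∈ I then F' c else F c) := by
        ext S
        rw [mem_powerset, mem_filter, mem_powerset]
        exact ⟨fun h => ⟨h.trans (hU I), h⟩, fun h => h.2⟩
      rw [h2, Finset.sum_filter]
      refine Finset.sum_congr rfl fun S _ => ?_
      by_cases h : S ⊆ (base ∪ univ.biUnion fun c => if c ∈ I then F' c else F c)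
      · rw [if_pos h, if_pos h, mul_one]
      · rw [if_neg h, if_neg h, mul_zero, zero_smul]
    rw [Finset.sum_congr rfl fun I _ => h1 I, Finset.sum_comm]
    refine Finset.sum_congr rfl fun S hS => ?_
    rw [← Finset.sum_smul, alt_coef hb hd (mem_powerset.1 hS)]
  rw [hleft]
  -- right side
  set PP := Fintype.piFinset (fun c => F c ∪ F' c) with hP
  have hmem : ∀ x ∈ PP, ∀ c, x c ∈ F c ∪ F' c := fun x hx => Fintype.mem_piFinset.1 hx
  have hinter : ∀ x ∈ PP, ∀ c, univ.image x ∩ (F c ∪ F' c) = {x c} := by
    intro x hx c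
    ext y
    rw [mem_inter, mem_singleton]
    constructor
    · rintro ⟨h1, h2⟩
      obtain ⟨c', -, rfl⟩ := mem_image.1 h1
      by_contra hne
      have hcc : c' ≠ c := fun h => hne (by rw [h])
      exact disjoint_left.1 (hd c' c hcc) (hmem x hx c') h2
    · rintro rfl
      exact ⟨mem_image_of_mem _ (mem_univ _), hmem x hx c⟩
  have hinj : Set.InjOn (fun x : C → X => univ.image x) PP := by
    intro x hx y hy hxy
    funext c
    have h1 := hinter x hx c
    have h2 := hinter y hy c
    have h3 : univ.image x = univ.image y := hxy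
    rw [h3, h2] at h1
    exact (singleton_injective h1).symm
  have hright : ∑ x ∈ PP, (∏ c, ((if x c ∈ F c then (1 : ℤ) else 0) -
      if x c ∈ F' c then 1 else 0)) • t (univ.image x) =
      ∑ S ∈ PP.image (fun x : C → X => univ.image x), K S • t S := by
    rw [Finset.sum_image hinj]
    refine Finset.sum_congr rfl fun x hx => ?_
    congr 1
    rw [hK]
    refine Finset.prod_congr rfl fun c _ => ?_
    simp only [hinter x hx c, singleton_subset_iff]
  rw [hright]
  symm
  refine Finset.sum_subset ?_ ?_
  · intro S hS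
    obtain ⟨x, hx, rfl⟩ := mem_image.1 hS
    rw [mem_powerset]
    intro y hy
    obtain ⟨c, -, rfl⟩ := mem_image.1 hy
    exact mem_union_right _ (mem_biUnion.2 ⟨c, mem_univ _, hmem x hx c⟩)
  · intro S hS hS'
    by_cases hcard : Fintype.card C < S.card
    · rw [ht S hcard, smul_zero]
    by_cases hne : ∀ c, (S ∩ (F c ∪ F' c)).Nonempty
    · exfalso
      choose x hx using hne
      apply hS'
      have hxP : x ∈ PP := Fintype.mem_piFinset.2 fun c => (mem_inter.1 (hx c)).2
      refine mem_image.2 ⟨x, hxP, ?_⟩
      have hxinj : Function.Injective x := by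
        intro c c' h
        by_contra hne
        have h1 := hmem x hxP c
        have h2 := hmem x hxP c'
        rw [← h] at h2
        exact disjoint_left.1 (hd c c' hne) h1 h2
      refine Finset.eq_of_subset_of_card_le ?_ ?_
      · intro y hy
        obtain ⟨c, -, rfl⟩ := mem_image.1 hy
        exact (mem_inter.1 (hx c)).1
      · rw [Finset.card_image_of_injective _ hxinj, card_univ]
        omega
    · push Not at hne
      obtain ⟨c, hc⟩ := hne
      have hc' : S ∩ (F c ∪ F' c) = ∅ := by
        simpa [Finset.not_nonempty_iff_eq_empty] using hc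
      have hz : K S = 0 := by
        rw [hK]
        refine Finset.prod_eq_zero (mem_univ c) ?_
        rw [hc', if_pos (empty_subset _), if_pos (empty_subset _), sub_self]
      rw [hz, zero_smul]

end

end Pool.Agent.Lib.MP_3e612f_nt.DI.G
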