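import Pool.Agent.Lib.MP_3e612f_nt.DI.BMul

/-!
`class_sel`: `bi_classes` with `κ = Fin W × Fin H`, `ι j = vec G (V j)`,
`ι' j k = vec G ((V j).filter (v.1 % W = k.1 ∧ v.2 = k.2))`. Two different gadgets in one class have
the same label, so different positions, congruent mod `W`.
-/

set_option autoImplicit false

namespace Pool.Agent.Lib.MP_3e612f_nt.DI

open Finset

theorem class_sel {ℓ : ℕ} [NeZero ℓ] {R : Type} [CommRing R] [Algebra (ZMod ℓ) R]
    {P H W d : ℕ} (hW : 1 ≤ W) (hH : 1 ≤ H) (hd : 0 < d) (T : R →+ ZMod ℓ)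
    (G : Fin P × Fin H → R) (V : Fin d → Finset (Fin P × Fin H)) :
    ∃ V' : Fin d → Finset (Fin P × Fin H), (∀ j, V' j ⊆ V j) ∧
      (∀ j, ∀ v ∈ V' j, ∀ w ∈ V' j, v ≠ w → (v.1 : ℕ) + W ≤ w.1 ∨ (w.1 : ℕ) + W ≤ v.1) ∧
      bi T univ (fun j => vec (ℓ := ℓ) G (V' j)) ^ (W * H) ^ d ≤
        bi T univ fun j => vec (ℓ := ℓ) G (V j) := by
  classical
  have hCne : Nonempty (Fin d) := ⟨⟨0, hd⟩⟩
  have hκne : Nonempty (Fin W × Fin H) := ⟨(⟨0, hW⟩, ⟨0, hH⟩)⟩
  let cl : Fin P × Fin H → Fin W × Fin H := fun v => (⟨(v.1 : ℕ) % W, Nat.mod_lt _ hW⟩, v.2)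
  obtain ⟨τ, hτ⟩ := bi_classes (κ := Fin W × Fin H) T (fun j => vec (ℓ := ℓ) G (V j))
    (fun j k => vec (ℓ := ℓ) G ((V j).filter fun v => cl v = k)) (by
      intro j e
      exact (Finset.sum_fiberwise (V j) cl fun x => e x • G x).symm)
  refine ⟨fun j => (V j).filter fun v => cl v = τ j, fun j => filter_subset _ _, ?_, ?_⟩
  · intro j v hv w hw hvw
    rw [mem_filter] at hv hw
    have h1 : cl v = cl w := hv.2.trans hw.2.symm
    have h2 : (v.1 : ℕ) % W = (w.1 : ℕ) % W := congrArg (fun k : Fin W × Fin H => (k.1 : ℕ)) h1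
    have h3 : v.2 = w.2 := congrArg (fun k : Fin W × Fin H => k.2) h1
    have h4 : (v.1 : ℕ) ≠ w.1 := fun h => hvw (Prod.ext (Fin.ext h) h3)
    rcases lt_or_gt_of_ne h4 with h | h
    · left
      have h5 : W ∣ (w.1 : ℕ) - v.1 := (Nat.modEq_iff_dvd' h.le).1 h2
      have h6 := Nat.le_of_dvd (by omega) h5
      omega
    · right
      have h5 : W ∣ (v.1 : ℕ) - w.1 := (Nat.modEq_iff_dvd' h.le).1 h2.symm
      have h6 := Nat.le_of_dvd (by omega) h5
      omega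
  · have h1 : Fintype.card (Fin W × Fin H) ^ Fintype.card (Fin d) = (W * H) ^ d := by
      rw [Fintype.card_prod, Fintype.card_fin, Fintype.card_fin, Fintype.card_fin]
    rw [h1] at hτ
    exact hτ

end Pool.Agent.Lib.MP_3e612f_nt.DI
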