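import Pool.Agent.Lib.MP_3e612f_nt.PI.Gad
import Pool.Agent.Lib.MP_3e612f_nt.PI.LL

/-!
(G1), the windows of `t * N B + s`, when the gadgets of `B` are switched on (helper31).
-/

set_option autoImplicit false

namespace Pool.Agent.Lib.MP_3e612f_nt.DI.G

open Finset
open Pool.Agent.Lib.MP_3e612f_nt.PI

section
variable {ι : Type} [DecidableEq ι] {q D g l H p r : ℕ} {z0 x0 : ℕ → ℕ}

/-- the data of the switched numbers: `N B`, `B ⊆ A`, has the switches of `B` on -/
structure Sw (q D g l : ℕ) (z0 x0 : ℕ → ℕ) (s : ℕ) (o : ι → ℕ × ℕ) (A : Finset ι)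
    (N : Finset ι → ℕ) : Prop where
  add : ∀ B ⊆ A, ∀ i ∈ A, i ∉ B → N (insert i B) = N B + q ^ ((o i).1 + g + D)
  con : ∀ B ⊆ A, ∀ i ∈ A, i ∉ B → N B / q ^ (o i).1 % q ^ (g + l) = zc q g l z0 x0 s (o i)

variable {s : ℕ} {o : ι → ℕ × ℕ} {A : Finset ι} {N : Finset ι → ℕ}

/-- windows which do not lie in the blocks -/
theorem win_out (hq : 2 ≤ q) (hDl : D ≤ l) (hG : Gad q D g l H p r z0 x0) {t : ℕ}
    (ht : t = p ∨ t = r) (ho : ∀ i ∈ A, (o i).2 < H) (hN : Sw q D g l z0 x0 s o A N) {j : ℕ}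
    (hj : ∀ i ∈ A, ¬ ((o i).1 + g ≤ j ∧ j < (o i).1 + g + (l - D))) {B : Finset ι} (hB : B ⊆ A) :
    wd q D j (t * N B + s) = wd q D j (t * N ∅ + s) := by
  induction B using Finset.induction_on with
  | empty => rfl
  | insert i B hi ih =>
    have hBA : B ⊆ A := (subset_insert i B).trans hB
    have hiA : i ∈ A := hB (mem_insert_self i B)
    rw [← ih hBA, hN.add B hBA i hiA hi]
    have e : t * (N B + q ^ ((o i).1 + g + D)) + s =
        t * N B + s + t * q ^ ((o i).1 + g + D) := by ring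
    rw [e]
    have hc := carry hq hG ht s (ho i hiA) (hN.con B hBA i hiA hi)
    refine wd_out hq hDl ?_ ?_ (l := l)
    · rw [hc]
      exact ut_top hq hDl hG ht s (ho i hiA)
    · intro h
      apply hj i hiA
      omega

/-- windows in the blocks -/
theorem win_in (hq : 2 ≤ q) (hDl : D ≤ l) (hG : Gad q D g l H p r z0 x0) {t : ℕ}
    (ht : t = p ∨ t = r) (ho : ∀ i ∈ A, (o i).2 < H) (hN : Sw q D g l z0 x0 s o A N) {i : ι}
    (hi : i ∈ A) {j : ℕ} (hj : j < l - D) {B : Finset ι} (hB : B ⊆ A) :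
    wd q D ((o i).1 + g + j) (t * N B + s) =
      wd q D j (ut q g l z0 x0 s t (o i) + if i ∈ B then t * q ^ D else 0) := by
  have hq0 : 0 < q := by omega
  have e1 : (o i).1 + g + j - ((o i).1 + g) = j := by omega
  rw [wd_in (l := l) (A := (o i).1 + g) hq (by omega) (by omega), e1]
  congr 1
  by_cases h : i ∈ B
  · rw [if_pos h]
    have h1 : N B = N (B.erase i) + q ^ ((o i).1 + g + D) := by
      rw [← hN.add (B.erase i) ((erase_subset _ _).trans hB) i hi (notMem_erase i B),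
        insert_erase h]
    have e : t * (N (B.erase i) + q ^ ((o i).1 + g + D)) + s =
        t * N (B.erase i) + s + q ^ ((o i).1 + g) * (t * q ^ D) := by
      rw [pow_add]; ring
    have hc := carry hq hG ht s (ho i hi)
      (hN.con (B.erase i) ((erase_subset _ _).trans hB) i hi (notMem_erase i B))
    rw [h1, e, Nat.add_mul_div_left _ _ (pow_pos hq0 _), ← Nat.mod_add_mod, hc,
      Nat.mod_eq_of_lt (ut_add_lt hq hDl hG ht s (ho i hi))]
  · rw [if_neg h, add_zero]
    exact carry hq hG ht s (ho i hi) (hN.con B hB i hi h)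

end

end Pool.Agent.Lib.MP_3e612f_nt.DI.G
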